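-- A 21-element poset with the fixed point property which is not unicoherent.
import Pool.Agent.S10356

set_option autoImplicit false

namespace Pool.Agent.Results.MP_9adbbf_co.NotUnicoherent

open Pool.Agent.S10356

/-- There are a partially ordered set `X` with 21 elements, with the topology in which the closure of
a point is its down-set, in which every order-preserving self-map has a fixed point, and two closed
connected sets `A`, `B` (down-sets) covering `X` whose intersection is nonempty and not connected. -/
theorem result :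
    ∃ (X : Type) (_ : PartialOrder X) (_ : TopologicalSpace X),
      Finite X ∧ Nat.card X = 21 ∧
      (∀ y : X, closure {y} = {x : X | x ≤ y}) ∧
      (∀ S : Set X, IsClosed S ↔ ∀ x ∈ S, ∀ y, y ≤ x → y ∈ S) ∧
      (∀ f : X → X, (∀ x y, x ≤ y → f x ≤ f y) → ∃ x, f x = x) ∧
      (∀ f : X → X, Continuous f → ∃ x, f x = x) ∧
      ∃ A B : Set X, A.Nonempty ∧ B.Nonempty ∧ IsClosed A ∧ IsClosed B ∧
        IsConnected A ∧ IsConnected B ∧ A ∪ B = Set.univ ∧
        (A ∩ B).Nonempty ∧ ¬ IsPreconnected (A ∩ B) := by
  let _ : TopologicalSpace P := Topology.upperSet P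
  have hfix : ∀ f : P → P, (∀ x y, x ≤ y → f x ≤ f y) → ∃ x, f x = x := fun f hf =>
    fixed_point ⟨f, fun x y h => hf x y h⟩
  refine ⟨P, inferInstance, inferInstance, inferInstance, ?_, ?_, ?_, hfix, ?_, S mA, S mB, ?_, ?_, ?_, ?_,
    conn_A, conn_B, union_AB, ?_, not_conn_inter⟩
  · exact Nat.card_eq_fintype_card.trans (Fintype.card_fin 21)
  · intro y
    rw [Topology.IsUpperSet.closure_singleton]
    rfl
  · intro T
    rw [Topology.IsUpperSet.isClosed_iff_isLower]
    exact ⟨fun h x hx y hy => h hy hx, fun h x y hy hx => h x hx y hy⟩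
  · intro f hf
    refine hfix f ?_
    exact (Topology.IsUpperSet.monotone_iff_continuous.2 hf)
  · exact ⟨pt 4, mem_S _ _ (by decide +kernel)⟩
  · exact ⟨pt 5, mem_S _ _ (by decide +kernel)⟩
  · exact closed_S mA (by decide +kernel)
  · exact closed_S mB (by decide +kernel)
  · exact ⟨pt 0, mem_S _ _ (by decide +kernel), mem_S _ _ (by decide +kernel)⟩

end Pool.Agent.Results.MP_9adbbf_co.NotUnicoherent
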